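import Pool.Agent.Y382.NCH.Stm

/-!
# The sections
-/

set_option autoImplicit false

namespace Pool.Agent.Y435.NCH

universe u

open Pool.Agent.Y382.NCH

theorem t_SEC : S_SEC.{u} := by
  classical
  intro G Q _ _ _ π g t ht hq hcard
  obtain ⟨q, hqdef⟩ : ∃ q, q = π g := ⟨_, rfl⟩
  rw [← hqdef] at hq ⊢
  obtain ⟨p, hp⟩ : ∃ p, p = orderOf q := ⟨_, rfl⟩
  have hpcard : p = Nat.card Q := by
    rw [hp]
    exact orderOf_eq_card_of_forall_mem_zpowers hq
  rw [← hpcard] at hcard ⊢
  obtain ⟨n, hn⟩ : ∃ n, p = n + 3 := ⟨p - 3, by omega⟩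
  have hqp : q ^ p = 1 := by rw [hp, pow_orderOf_eq_one]
  have hpos : 0 < p := by omega
  -- the discrete logarithm
  have hlog : ∀ i : Q, ∃ k, k < p ∧ q ^ k = i := by
    intro i
    have := (isOfFinOrder_of_finite q).mem_powers_iff_mem_range_orderOf.1
      ((mem_powers_iff_mem_zpowers).2 (hq i))
    rw [← hp] at this
    simpa using this
  choose e he1 he2 using hlog
  have heq : ∀ k, k < p → e (q ^ k) = k := by
    intro k hk
    have h1 : e (q ^ k) ∈ Set.Iio (orderOf q) := by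
      rw [← hp]
      exact he1 _
    have h2 : k ∈ Set.Iio (orderOf q) := by
      rw [← hp]
      exact hk
    exact pow_injOn_Iio_orderOf h1 h2 (he2 _)
  obtain ⟨X, hXdef⟩ : ∃ X : ℕ → G, X = fun k => if k = 0 then 1 else g * t * g ^ (k - 1) :=
    ⟨_, rfl⟩
  obtain ⟨Y, hYdef⟩ : ∃ Y : ℕ → G, Y = fun k =>
      if k = 1 then t⁻¹ * (g ^ (n + 2))⁻¹ else g ^ k * (g ^ (n + 3))⁻¹ := ⟨_, rfl⟩
  have X0 : X 0 = 1 := by simp [hXdef]
  have Xs : ∀ k, X (k + 1) = g * t * g ^ k := by
    intro k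
    simp [hXdef]
  have Y1 : Y 1 = t⁻¹ * (g ^ (n + 2))⁻¹ := by simp [hYdef]
  have Ys : ∀ k, Y (k + 2) = g ^ (k + 2) * (g ^ (n + 3))⁻¹ := by
    intro k
    rw [hYdef]
    show (if k + 2 = 1 then _ else _) = _
    rw [if_neg (by omega)]
  have Y0 : Y 0 = (g ^ (n + 3))⁻¹ := by simp [hYdef]
  have hqn : q ^ (n + 3) = 1 := by rw [← hn]; exact hqp
  have hX : ∀ k, π (X k) = q ^ k := by
    intro k
    rcases k with _ | k
    · rw [X0, map_one, pow_zero]
    · rw [Xs, map_mul, map_mul, map_pow, ht, mul_one, ← hqdef, ← pow_succ']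
  have hY : ∀ k, π (Y k) = q ^ k := by
    intro k
    rcases k with _ | _ | k
    · rw [Y0, map_inv, map_pow, ← hqdef, hqn, inv_one, pow_zero]
    · rw [zero_add, Y1, map_mul, map_inv, map_inv, map_pow, ht, inv_one, one_mul, ← hqdef, pow_one,
        inv_eq_iff_mul_eq_one, ← pow_succ, hqn]
    · rw [Ys, map_mul, map_inv, map_pow, map_pow, ← hqdef, hqn, inv_one, mul_one]
  have hXY : ∀ k, X k * Y (k + 2) = X (k + 1) * Y (k + 1) := by
    intro k
    rcases k with _ | k
    · rw [X0, Ys, Xs, zero_add, Y1, one_mul, show g ^ (n + 3) = g ^ (n + 2) * g from pow_succ _ _]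
      generalize g ^ (n + 2) = a
      group
    · rw [Xs, Ys, Xs, Ys]
      have e1 : g ^ k * g ^ (k + 1 + 2) = g ^ (k + 1) * g ^ (k + 2) := by
        rw [← pow_add, ← pow_add]
        congr 1
        omega
      calc g * t * g ^ k * (g ^ (k + 1 + 2) * (g ^ (n + 3))⁻¹)
          = g * t * (g ^ k * g ^ (k + 1 + 2)) * (g ^ (n + 3))⁻¹ := by group
        _ = g * t * (g ^ (k + 1) * g ^ (k + 2)) * (g ^ (n + 3))⁻¹ := by rw [e1]
        _ = g * t * g ^ (k + 1) * (g ^ (k + 2) * (g ^ (n + 3))⁻¹) := by group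
  obtain ⟨e', he'def⟩ : ∃ e' : Q → ℕ, e' = fun i => if e i = 0 then p else e i := ⟨_, rfl⟩
  have he' : ∀ i, q ^ e' i = i := by
    intro i
    by_cases h : e i = 0
    · have h2 := he2 i
      rw [h, pow_zero] at h2
      simp only [he'def, h, if_true]
      rw [hqp, h2]
    · simp only [he'def, h, if_false]
      exact he2 i
  have e1 : e 1 = 0 := by
    have := heq 0 hpos
    rwa [pow_zero] at this
  have he'eq : ∀ k, 1 ≤ k → k ≤ p → e' (q ^ k) = k := by
    intro k h1 h2
    rcases Nat.lt_or_ge k p with h | h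
    · simp only [he'def, heq k h]
      rw [if_neg (by omega)]
    · have hkp : k = p := le_antisymm h2 h
      rw [hkp]
      simp only [he'def, hqp, e1, if_true]
  have hinv : q⁻¹ = q ^ (n + 2) := by
    rw [inv_eq_iff_mul_eq_one, ← pow_succ', hqn]
  refine ⟨fun i => X (e i), fun i => Y (e' i), fun i => by rw [hX, he2], fun i => by rw [hY, he'],
    ?_, ?_, ?_, ?_⟩
  · show X (e 1) = 1
    rw [e1, X0]
  · show Y (e' 1) = 1
    have h1 : e' 1 = p := by
      have := he'eq p (by omega) le_rfl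
      rwa [hqp] at this
    rw [h1, hn, Ys]
    exact mul_inv_cancel _
  · intro i hi
    have hk : e i ≤ n + 1 := by
      by_contra hcon
      push Not at hcon
      have h1 := he1 i
      have : e i = n + 2 := by omega
      apply hi
      rw [hinv, ← this, he2]
    have hi1 : i * q = q ^ (e i + 1) := by rw [pow_succ, he2]
    have hi2 : i * q * q = q ^ (e i + 2) := by rw [pow_succ, ← hi1]
    simp only
    rw [hi2, hi1, heq (e i + 1) (by omega), he'eq (e i + 1) (by omega) (by omega),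
      he'eq (e i + 2) (by omega) (by omega)]
    exact hXY _
  · simp only
    have h1 : e q⁻¹ = n + 2 := by
      rw [hinv]
      exact heq _ (by omega)
    have h2 : e' q = 1 := by
      have := he'eq 1 le_rfl (by omega)
      rwa [pow_one] at this
    rw [h1, h2, Xs, Y1, hn]
    have h3 : n + 3 - 2 = n + 1 := by omega
    have h4 : n + 3 - 1 = n + 2 := by omega
    rw [h3, h4]
    group

end Pool.Agent.Y435.NCH
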